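import Pool.Agent.Work.MP_e39611_pr.Weak

/-!
Q1: for fixed `α > 0` the rescaled ordered component sizes of the simple preferential attachment
graph process converge in distribution in the critical window.
-/

namespace Pool.Agent.Results.MP_e39611_pr.Q1

open Pool.Agent.Work.MP_e39611_pr MeasureTheory Filter Topology BoundedContinuousFunction

theorem result : ∀ (α : ℝ), 0 < α → ∀ (lam : ℝ),
    ∃ μ : Measure (ℕ → ℝ), IsProbabilityMeasure μ ∧
      ∀ ε : ℕ → ℝ, Tendsto (fun n : ℕ => ε n * (n : ℝ) ^ (1 / 3 : ℝ)) atTop (𝓝 lam) →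
        ∀ f : (ℕ → ℝ) →ᵇ ℝ,
          Tendsto (fun n : ℕ => paExp α n ⌊(n : ℝ) * α / (2 * (α + 1)) * (1 + ε n)⌋₊ f)
            atTop (𝓝 (∫ x, f x ∂μ)) :=
  main_Q1

end Pool.Agent.Results.MP_e39611_pr.Q1
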