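import Pool.Agent.Work.MP_e39611_pr.Weak

/-!
Q2: if `α(n) → ∞` (in particular if `α(n) / n^(2/3) → ∞`), the rescaled ordered component sizes of
the simple preferential attachment graph process in the critical window have the same limit in
distribution as those of the uniform random graph with `⌊n/2 (1 + λ n^(-1/3))⌋` edges.
-/

namespace Pool.Agent.Results.MP_e39611_pr.Q2

open Pool.Agent.Work.MP_e39611_pr MeasureTheory Filter Topology BoundedContinuousFunction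

theorem result : ∀ (lam : ℝ),
    ∃ μ : Measure (ℕ → ℝ), IsProbabilityMeasure μ ∧
      (∀ f : (ℕ → ℝ) →ᵇ ℝ,
        Tendsto (fun n : ℕ => erExp n ⌊(n : ℝ) / 2 * (1 + lam * (n : ℝ) ^ (-(1 / 3) : ℝ))⌋₊ f)
          atTop (𝓝 (∫ x, f x ∂μ))) ∧
      ∀ α : ℕ → ℝ, (∀ n, 0 < α n) → Tendsto α atTop atTop →
        ∀ ε : ℕ → ℝ, Tendsto (fun n : ℕ => ε n * (n : ℝ) ^ (1 / 3 : ℝ)) atTop (𝓝 lam) →
          ∀ f : (ℕ → ℝ) →ᵇ ℝ,
            Tendsto (fun n : ℕ => paExp (α n) n ⌊(n : ℝ) * α n / (2 * (α n + 1)) * (1 + ε n)⌋₊ f)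
              atTop (𝓝 (∫ x, f x ∂μ)) :=
  main_Q2

end Pool.Agent.Results.MP_e39611_pr.Q2
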